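import Pool.Agent.Helper73.OE.Iface

/-!
Project OE, block D (Section 7 of Pool/Agent/Helper73/OE/paper.md): the functional `Y` of Lemma 7.3
and the statements between block A/B and block D.
-/

open MeasureTheory
open scoped ENNReal

namespace Pool.Agent.Helper73.OE

namespace Sys

variable {H S L : Type} [Group H] (X : Sys H S L)

open Classical in
/-- The functional `Y_h(z, r; l)` of Section 7: `r` is the direction of the parent of `z`. -/
noncomputable def YY [Fintype S] (O Sg : Edges H S) (q : Cfg H S L) (t ζ κ : ℝ≥0∞) :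
    ℕ → H → S → L → ℝ≥0∞
  | 0, _, _, _ => 0
  | h + 1, z, r, l => t *
      ((∑ c ∈ Finset.univ.erase r, if q z c = l ∧ O z c then
          YY O Sg q t ζ κ h (X.nb z c) (X.bar c) (X.tau (q z r)) else 0) +
        ζ * ∏ c ∈ Finset.univ.erase r, (1 + (if Sg z c then κ else 1) *
          YY O Sg q t ζ κ h (X.nb z c) (X.bar c) (X.tau (q z r))))

open Classical in
/-- The functional at the root. -/
noncomputable def YR [Fintype S] (O Sg : Edges H S) (q : Cfg H S L) (t ζ κ : ℝ≥0∞) (o : H) :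
    ℝ≥0∞ :=
  ⨆ h : ℕ, t * (ζ * ∏ c : S, (1 + (if Sg o c then κ else 1) *
    X.YY O Sg q t ζ κ h (X.nb o c) (X.bar c) (X.e0 c)))

/-- All labels `.2` of the environment are different. -/
def Dist (η : Env H S) : Prop := ∀ e e' : H × S, (η e).2 = (η e').2 → e = e'

end Sys

/-- Blocks A and B, everything which block D needs from the deterministic part (7.2, 7.4 and the
deterministic part of 7.7). `m` is the number of vertices of a compatible tree at `o` and `k` the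
number of its updates. In the first part the vertex `v` lies in the tree or has a neighbour in it, so
`dist o v ≤ m`. In the second part the tree is contained in `ball o (m - 1)`; if `k = 1` and `Λ`
contains the tree and its neighbours then `o` is changed by the static update. -/
def Wit_stmt : Prop :=
  ∀ {H S L : Type} [Group H] [Fintype S] [Fintype L] (X : Sys H S L), 3 ≤ Fintype.card L →
    ∀ J M : ℕ, ∃ CR : ℕ,
    ∀ cap : ℕ, 1 ≤ cap → ∀ (ε ε' : ℝ) (q : Cfg H S L) (η : Env H S) (u : Seeds H S), ε' ≤ ε →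
      X.MA (X.Op ε η) Set.univ q → Sys.Dist η → ∀ o : H,
      (∀ (Λ : Finset H) (v : H), v ∉ Λ →
        X.dyn ⟨J, M, cap⟩ ε ε' (Λ : Set H) q η u o ≠
          X.dyn ⟨J, M, cap⟩ ε ε' (insert v (Λ : Set H)) q η u o →
        ∃ m k : ℕ, 1 ≤ k ∧ X.dist o v ≤ m ∧ ∀ t ζ κ : ℝ≥0∞, 1 ≤ t → ζ ≤ 1 → 1 ≤ κ →
          t ^ m * (ζ ^ CR * κ) ^ k ≤ X.YR (X.Op ε η) (X.Si ε ε' η) q t ζ κ o) ∧
      (∀ Λ : Finset H, X.dyn ⟨J, M, cap⟩ ε ε' (Λ : Set H) q η u o ≠ q o →
        ∃ m k : ℕ, 1 ≤ k ∧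
          (k = 1 → X.ball o m ⊆ (Λ : Set H) →
            ∃ v s, X.ChSt ⟨J, M, cap⟩ ε ε' q η u v s o) ∧
          ∀ t ζ κ : ℝ≥0∞, 1 ≤ t → ζ ≤ 1 → 1 ≤ κ →
            t ^ m * (ζ ^ CR * κ) ^ k ≤ X.YR (X.Op ε η) (X.Si ε ε' η) q t ζ κ o)

/-- Locality of an update in a finite (or any) volume: all open edges and the updated edge are
inside `Λ`. -/
def UpdLoc_stmt : Prop :=
  ∀ {H S L : Type} [Group H] [Fintype L] (X : Sys H S L) (P : Par) (Λ : Set H) (O : Edges H S),
    (∀ v s, O v s → v ∈ Λ ∧ X.nb v s ∈ Λ) → ∀ (v : H) (s : S), v ∈ Λ → X.nb v s ∈ Λ →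
    ∀ (u : ℕ) (f f' : Cfg H S L), (∀ z ∈ Λ, f z = f' z) →
      (∀ z ∈ Λ, X.Upd P O v s u f z = X.Upd P O v s u f' z) ∧
      ∀ z, z ∉ Λ → X.Upd P O v s u f z = f z

/-- The spine (helper73): the law after the batch in a finite volume (7.1). -/
def FV_stmt : Prop :=
  ∀ {H S L : Type} [Group H] [Countable H] [Fintype S] [Fintype L] (X : Sys H S L) (P : Par),
    1 ≤ P.cap → ∀ ε ε' : ℝ, 0 < ε' → ε' < ε → ∀ μ : Measure (Cfg H S L × Env H S),
      X.IsStar ε μ → ∀ (o : H) (Λ : Finset H), X.PC o (Λ : Set H) →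
      ∀ F : Cfg H S L × Env H S → ℝ≥0∞, Measurable F →
        (∀ q q' η, (∀ z ∈ Λ, q z = q' z) → F (q, η) = F (q', η)) →
        ∫⁻ w, F (X.dyn P ε ε' (Λ : Set H) w.1.1 w.1.2 w.2, w.1.2) ∂(μ.prod (Sys.lamS H S)) =
          ∫⁻ η, X.starAvg Λ (X.Op ε' η) (fun q => F (q, η)) ∂(Sys.lamE H S)

/-- The spine (helper73): consistency of the mean values. -/
def StarCons_stmt : Prop :=
  ∀ {H S L : Type} [Group H] [Fintype S] [Fintype L] (X : Sys H S L) (O : Edges H S), X.Sym O →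
    ∀ (o : H) (Λ Λ' : Finset H), X.PC o (Λ : Set H) → X.PC o (Λ' : Set H) → Λ ⊆ Λ' →
    ∀ F : Cfg H S L → ℝ≥0∞, (∀ q q', (∀ z ∈ Λ, q z = q' z) → F q = F q') →
      X.starAvg Λ' O F = X.starAvg Λ O F

end Pool.Agent.Helper73.OE
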