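import Pool.Agent.Helper75.OE.GoalsA

/-!
Project OE, packet PICK.
-/

open Pool.Agent.Helper73.OE

namespace Pool.Agent.Helper79.OE

theorem pick_a : Pool.Agent.Helper75.OE.A_PICK := by
  intro ι cap A
  refine ⟨?_, ?_⟩
  · intro u j h
    unfold pick at h
    split_ifs at h with hc
    simp only [Option.some.injEq] at h
    refine ⟨?_, hc.1, hc.2⟩
    rw [← h]
    exact (A.equivFin.symm ⟨u, hc.2⟩).2
  · intro hc j hj
    refine ⟨(A.equivFin ⟨j, hj⟩ : ℕ), ?_, ?_⟩
    · show pick cap A _ = some j
      unfold pick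
      rw [dif_pos ⟨hc, (A.equivFin ⟨j, hj⟩).2⟩]
      simp
    · intro u hu
      have hu' : pick cap A u = some j := hu
      unfold pick at hu'
      split_ifs at hu' with h2
      simp only [Option.some.injEq] at hu'
      have h3 : A.equivFin.symm ⟨u, h2.2⟩ = ⟨j, hj⟩ := Subtype.ext hu'
      rw [← h3]
      simp

end Pool.Agent.Helper79.OE
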