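import Pool.Agent.Helper75.OE.GoalsB2

/-!
Project OE, packet WIT.
-/

open MeasureTheory Pool.Agent.Helper73.OE Pool.Agent.Helper75.OE
open scoped ENNReal

namespace Pool.Agent.Helper79.OE

/-- A finite parent-closed set contains only vertices of small distance. -/
theorem dist_lt_card {H S L : Type} [Group H] (X : Sys H S L) (o : H) (C : Finset H)
    (hC : X.PC o (C : Set H)) : ∀ z ∈ C, X.dist o z < C.card := by
  classical
  have key : ∀ n : ℕ, ∀ z ∈ C, X.dist o z = n →
      n + 1 ≤ (C.filter fun x => X.dist o x ≤ n).card := by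
    intro n
    induction n with
    | zero =>
      intro z hz h0
      rw [Nat.succ_le_iff, Finset.card_pos]
      exact ⟨z, Finset.mem_filter.2 ⟨hz, h0.le⟩⟩
    | succ n ih =>
      intro z hz hn
      have hzo : z ≠ o := by
        rintro rfl
        rw [X.dist_self] at hn
        omega
      obtain ⟨s, hs⟩ := X.exists_parent hzo
      have hp : X.nb z s ∈ C := Finset.mem_coe.1 (hC.2 z (Finset.mem_coe.2 hz) s hs)
      have h1 := ih _ hp (by omega)
      have h2 : insert z (C.filter fun x => X.dist o x ≤ n) ⊆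
          C.filter fun x => X.dist o x ≤ n + 1 := by
        intro x hx
        rw [Finset.mem_insert, Finset.mem_filter] at hx
        rw [Finset.mem_filter]
        rcases hx with rfl | ⟨hx, hxn⟩
        · exact ⟨hz, hn.le⟩
        · exact ⟨hx, by omega⟩
      have h3 := Finset.card_le_card h2
      rw [Finset.card_insert_of_notMem] at h3
      · omega
      · rw [Finset.mem_filter]
        rintro ⟨-, h⟩
        omega
  intro z hz
  have h1 := key _ z hz rfl
  have h2 := Finset.card_le_card (Finset.filter_subset (fun x => X.dist o x ≤ X.dist o z) C)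
  omega

theorem wit : B_WIT := by
  classical
  intro hORD hL74 hA hB H S L _ _ _ X h3 J M
  refine ⟨CR X ⟨J, M, 0⟩, ?_⟩
  intro cap hcap ε ε' q η u hε hMA hDist o
  refine ⟨?_, ?_⟩
  · intro Λ v hv hne
    obtain ⟨C, Sp, k, hCT, hvC⟩ := hA H S L X ⟨J, M, cap⟩ ε ε' q η u Λ v o hMA
      ⟨_, (hORD X ε ε' η _).2 inferInstance (Finset.finite_toSet _) hDist⟩ (by
        rw [Finset.coe_insert]
        exact hne.symm)
    refine ⟨C.card, k, hCT.one, ?_, ?_⟩
    · rcases hvC with h | ⟨s, h⟩
      · exact (dist_lt_card X o C hCT.pc v h).le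
      · have h4 := dist_lt_card X o C hCT.pc _ h
        have h5 := X.dist_le_nb o v s
        omega
    · intro t ζ κ ht hζ hκ
      exact hL74 H S L X ⟨J, M, cap⟩ t ζ κ _ _ q o C Sp k hζ hκ hCT
  · intro Λ hne
    obtain ⟨C, Sp, k, hCT, h1⟩ := hB H S L X ⟨J, M, cap⟩ ε ε' q η u Λ o hMA
      ⟨_, (hORD X ε ε' η _).2 inferInstance (Finset.finite_toSet _) hDist⟩ hne
    refine ⟨C.card, k, hCT.one, ?_, ?_⟩
    · intro hk hball
      refine h1 hk ?_
      intro z hz
      have h4 := dist_lt_card X o C hCT.pc z hz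
      refine ⟨Finset.mem_coe.1 (hball (X.mem_ball.2 h4.le)), fun s => ?_⟩
      have h5 := X.dist_nb_le o z s
      exact Finset.mem_coe.1 (hball (X.mem_ball.2 (by omega)))
    · intro t ζ κ ht hζ hκ
      exact hL74 H S L X ⟨J, M, cap⟩ t ζ κ _ _ q o C Sp k hζ hκ hCT

end Pool.Agent.Helper79.OE
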