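import Pool.Agent.Helper79.OE.GoalsD

/-!
Project OE, packet STB: stabilization of the finite volumes.
-/

open MeasureTheory Pool.Agent.Helper73.OE Pool.Agent.Helper78.OE
open scoped ENNReal

namespace Pool.Agent.Helper79.OE

open Classical in
theorem batch_eq_of_eventually {H S L : Type} [Group H] [Fintype L] (X : Sys H S L) (P : Par)
    (ε ε' : ℝ) (q : Cfg H S L) (η : Env H S) (u : Seeds H S) (o : H) (f : S ≃ L)
    (h : ∀ᶠ Λ : Finset H in Filter.atTop, X.dyn P ε ε' (Λ : Set H) q η u o = f) :
    X.batch P ε ε' q η u o = f := by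
  have hex : ∃ f : S ≃ L, ∀ᶠ Λ : Finset H in Filter.atTop,
      X.dyn P ε ε' (Λ : Set H) q η u o = f := ⟨f, h⟩
  unfold Sys.batch
  rw [dif_pos hex]
  have h2 := hex.choose_spec
  obtain ⟨Λ, h3, h4⟩ := (h2.and h).exists
  exact h3.symm.trans h4

theorem stb : D_STB := by
  classical
  intro H S L _ _ _ X P ε ε' q η u o t b y ht hb hy hW
  have h1 : Filter.Tendsto (fun n : ℕ => t ^ n) Filter.atTop (nhds ⊤) :=
    ENNReal.tendsto_pow_atTop_nhds_top_iff.2 ht
  have h2 : ∀ᶠ n : ℕ in Filter.atTop, y < t ^ n :=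
    h1.eventually (lt_mem_nhds hy.lt_top)
  obtain ⟨N, hN⟩ := h2.exists
  have hm : ∀ m k : ℕ, t ^ m * b ^ k ≤ y → m ≤ N := by
    intro m k h
    by_contra hmN
    have h3 : t ^ N ≤ t ^ m := pow_le_pow_right₀ ht.le (by omega)
    have h4 : t ^ m * 1 ≤ t ^ m * b ^ k := by
      gcongr
      exact one_le_pow₀ hb
    rw [mul_one] at h4
    exact absurd (hN.trans_le (h3.trans (h4.trans h))) (lt_irrefl _)
  have hstep : ∀ (Λ : Finset H) (v : H), v ∉ Λ → N < X.dist o v →
      X.dyn P ε ε' (Λ : Set H) q η u o = X.dyn P ε ε' (insert v (Λ : Set H)) q η u o := by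
    intro Λ v hv hd
    by_contra hne
    obtain ⟨m, k, -, h5, h6⟩ := hW Λ v hv hne
    have := hm m k h6
    omega
  set B : Finset H := (X.finite_ball o N).toFinset with hB
  have hBc : (B : Set H) = X.ball o N := by rw [hB]; exact Set.Finite.coe_toFinset _
  have hadd : ∀ D : Finset H, Disjoint B D →
      X.dyn P ε ε' ((B ∪ D : Finset H) : Set H) q η u o = X.dyn P ε ε' (B : Set H) q η u o := by
    intro D
    induction D using Finset.induction_on with
    | empty => intro _; rw [Finset.union_empty]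
    | insert v D hv ih =>
      intro hd
      rw [Finset.disjoint_insert_right] at hd
      have h7 : v ∉ B ∪ D := by
        rw [Finset.mem_union]; rintro (h | h)
        · exact hd.1 h
        · exact hv h
      have h8 : N < X.dist o v := by
        by_contra h
        apply hd.1
        rw [← Finset.mem_coe, hBc]
        exact not_lt.1 h
      rw [Finset.union_insert, Finset.coe_insert, ← hstep _ v h7 h8]
      exact ih hd.2
  have hall : ∀ Λ : Finset H, X.ball o N ⊆ (Λ : Set H) →
      X.dyn P ε ε' (Λ : Set H) q η u o = X.dyn P ε ε' (B : Set H) q η u o := by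
    intro Λ hΛ
    have h9 : B ⊆ Λ := by
      intro x hx
      rw [← Finset.mem_coe, hBc] at hx
      exact Finset.mem_coe.1 (hΛ hx)
    have h10 := hadd (Λ \ B) Finset.disjoint_sdiff
    rwa [Finset.union_sdiff_of_subset h9] at h10
  have hbatch : X.batch P ε ε' q η u o = X.dyn P ε ε' (B : Set H) q η u o := by
    apply batch_eq_of_eventually
    filter_upwards [Filter.eventually_ge_atTop B] with Λ hΛ
    apply hall
    rw [← hBc]
    exact Finset.coe_subset.2 hΛ
  exact ⟨N, hm, fun Λ hΛ => hbatch.trans (hall Λ hΛ).symm⟩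

end Pool.Agent.Helper79.OE
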