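import Pool.Agent.Helper79.OE.GoalsD

/-!
Project OE, packet STR: the strip formulas.
-/

open MeasureTheory Pool.Agent.Helper73.OE Pool.Agent.Helper78.OE
open scoped ENNReal

namespace Pool.Agent.Helper79.OE

theorem str : D_STR := by
  intro hLAB hInd H S L _ _ _ _ X ε ε' μ h0 h1 h2 hstar v s G hG hdep
  have m1 : ∀ a : ℝ, MeasurableSet {x : (unitInterval × unitInterval) ×
      (unitInterval × unitInterval) | (x.1.1 : ℝ) ^ 2 ≤ a ∧ (x.2.1 : ℝ) ^ 2 ≤ a} := by
    intro a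
    have g1 : Measurable fun x : (unitInterval × unitInterval) × (unitInterval × unitInterval) =>
        (x.1.1 : ℝ) ^ 2 :=
      (measurable_subtype_coe.comp (measurable_fst.comp measurable_fst)).pow_const 2
    have g2 : Measurable fun x : (unitInterval × unitInterval) × (unitInterval × unitInterval) =>
        (x.2.1 : ℝ) ^ 2 :=
      (measurable_subtype_coe.comp (measurable_fst.comp measurable_snd)).pow_const 2
    exact (measurableSet_le g1 measurable_const).inter (measurableSet_le g2 measurable_const)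
  refine ⟨?_, ?_⟩
  · have h := hInd X ε μ hstar v s G hG hdep
      (fun x => ind (¬ ((x.1.1 : ℝ) ^ 2 ≤ ε ∧ (x.2.1 : ℝ) ^ 2 ≤ ε)))
      (measurable_ind (m1 ε).compl)
    rw [mul_comm] at h
    rw [← (hLAB ε ε' h0 h1 h2).1]
    exact h
  · have h := hInd X ε μ hstar v s G hG hdep
      (fun x => ind (((x.1.1 : ℝ) ^ 2 ≤ ε ∧ (x.2.1 : ℝ) ^ 2 ≤ ε) ∧
        ¬ ((x.1.1 : ℝ) ^ 2 ≤ ε' ∧ (x.2.1 : ℝ) ^ 2 ≤ ε')))
      (measurable_ind ((m1 ε).inter (m1 ε').compl))
    rw [mul_comm] at h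
    rw [← (hLAB ε ε' h0 h1 h2).2]
    exact h

end Pool.Agent.Helper79.OE
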