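import Pool.Agent.Helper79.OE.GoalsD

/-!
Project OE, packet YPR: stripping the children one by one.
-/

open MeasureTheory Pool.Agent.Helper73.OE Pool.Agent.Helper78.OE
open scoped ENNReal

namespace Pool.Agent.Helper79.OE

theorem Si_congr {H S L : Type} [Group H] (X : Sys H S L) {ε ε' : ℝ} {η η' : Env H S} {v : H}
    {s : S} (h1 : η (v, s) = η' (v, s)) (h2 : η (X.rev (v, s)) = η' (X.rev (v, s))) :
    X.Si ε ε' η v s ↔ X.Si ε ε' η' v s := by
  unfold Sys.Si Sys.Cl
  rw [h1, h2]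

theorem measurableSet_Cl {H S L : Type} [Group H] (X : Sys H S L) (ε : ℝ) (v : H) (s : S) :
    MeasurableSet {η : Env H S | X.Cl ε η v s} := by
  have h : ∀ e : H × S, Measurable fun η : Env H S => ((η e).1 : ℝ) ^ 2 := fun e =>
    (measurable_subtype_coe.comp (measurable_fst.comp (measurable_pi_apply e))).pow_const 2
  have e : {η : Env H S | X.Cl ε η v s} = {η : Env H S | ((η (v, s)).1 : ℝ) ^ 2 ≤ ε} ∩
      {η : Env H S | ((η (X.rev (v, s))).1 : ℝ) ^ 2 ≤ ε} := rfl
  rw [e]
  exact (measurableSet_le (h _) measurable_const).inter (measurableSet_le (h _) measurable_const)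

theorem measurableSet_Si {H S L : Type} [Group H] (X : Sys H S L) (ε ε' : ℝ) (v : H) (s : S) :
    MeasurableSet {η : Env H S | X.Si ε ε' η v s} := by
  unfold Sys.Si
  exact (measurableSet_Cl X ε v s).inter (measurableSet_Cl X ε' v s).compl

theorem measurableSet_Si' {H S L : Type} [Group H] (X : Sys H S L) (ε ε' : ℝ) (v : H) (s : S) :
    MeasurableSet {w : Cfg H S L × Env H S | X.Si ε ε' w.2 v s} :=
  measurable_snd (measurableSet_Si X ε ε' v s)

/-- `Si` at an edge with both ends in `A` depends on `A`. -/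
theorem dep_Si {H S L : Type} [Group H] (X : Sys H S L) (ε ε' : ℝ) {A : Set H} {v : H} {s : S}
    (h1 : v ∈ A) (h2 : X.nb v s ∈ A) (w w' : Cfg H S L × Env H S)
    (h : ∀ z s, z ∈ A → X.nb z s ∈ A → w.2 (z, s) = w'.2 (z, s)) :
    X.Si ε ε' w.2 v s ↔ X.Si ε ε' w'.2 v s := by
  apply Si_congr
  · exact h v s h1 h2
  · refine h _ _ h2 ?_
    rw [X.nb_bar]; exact h1

open Classical in
theorem ypr : D_YPR := by
  intro hYME H S L _ _ _ X ε ε' t ζ κ μ strip hκ h hBd z A lab G hG hdep
  induction A using Finset.induction_on with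
  | empty => simp
  | insert c B hc ih =>
    have hB : ∀ c' ∈ B, X.DepOn (X.Sd z c') G := fun c' hc' =>
      hdep c' (Finset.mem_insert_of_mem hc')
    have ih' := ih hB
    set G' : Cfg H S L × Env H S → ℝ≥0∞ := fun w => G w * ∏ c ∈ B,
      (1 + (if X.Si ε ε' w.2 z c then κ else 1) *
        yy X ε ε' t ζ κ h (X.nb z c) (X.bar c) (lab c) w) with hG'
    have mk : ∀ c', Measurable fun w : Cfg H S L × Env H S =>
        (if X.Si ε ε' w.2 z c' then κ else 1) := fun c' =>
      Measurable.ite (measurableSet_Si' X ε ε' z c') measurable_const measurable_const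
    have my : ∀ c', Measurable (yy X ε ε' t ζ κ h (X.nb z c') (X.bar c') (lab c')) := fun c' =>
      (hYME X ε ε' t ζ κ h (X.nb z c') (X.bar c') (lab c')).1
    have mG' : Measurable G' :=
      hG.mul (Finset.measurable_prod _ fun c' _ => measurable_const.add ((mk c').mul (my c')))
    have dG' : X.DepOn (X.Sd z c) G' := by
      intro w w' h1 h2
      simp only [hG']
      rw [hdep c (Finset.mem_insert_self c B) w w' h1 h2]
      congr 1
      refine Finset.prod_congr rfl fun c' hc' => ?_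
      have hne : c' ≠ c := fun h => hc (h ▸ hc')
      have e1 : X.Sd (X.nb z c') (X.bar c') ⊆ X.Sd z c := X.branch_subset hne
      have e2 : X.Si ε ε' w.2 z c' ↔ X.Si ε ε' w'.2 z c' :=
        dep_Si X ε ε' (X.self_mem_Sd z c) (e1 (X.self_mem_Sd _ _)) w w' h2
      have e3 := (hYME X ε ε' t ζ κ h (X.nb z c') (X.bar c') (lab c')).2.1 w w'
        (fun y hy => h1 y (e1 hy)) (fun y s hy hs => h2 y s (e1 hy) (e1 hs))
      rw [e3]
      simp only [e2]
    -- the new factor
    have hk : ∀ w : Cfg H S L × Env H S, G' w * (if X.Si ε ε' w.2 z c then κ else 1) ≤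
        G' w + κ * (G' w * ind (X.Si ε ε' w.2 z c)) := by
      intro w
      by_cases hs : X.Si ε ε' w.2 z c
      · rw [if_pos hs, ind_true hs, mul_one, mul_comm κ]
        exact le_add_self
      · rw [if_neg hs, ind_false hs, mul_one]
        exact le_self_add
    have dGk : X.DepOn (X.Past (X.nb z c) (X.bar c))
        (fun w => G' w * (if X.Si ε ε' w.2 z c then κ else 1)) := by
      intro w w' h1 h2
      rw [X.Past_nb] at h1 h2
      have e2 : X.Si ε ε' w.2 z c ↔ X.Si ε ε' w'.2 z c :=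
        dep_Si X ε ε' (Set.mem_insert_of_mem _ (X.self_mem_Sd z c)) (Set.mem_insert _ _) w w' h2
      have e3 := dG' w w' (fun y hy => h1 y (Set.mem_insert_of_mem _ hy))
        (fun y s hy hs => h2 y s (Set.mem_insert_of_mem _ hy) (Set.mem_insert_of_mem _ hs))
      simp only [e3, e2]
    have hst := (strip z c G' mG' dG').2
    calc ∫⁻ w, G w * ∏ c ∈ insert c B, (1 + (if X.Si ε ε' w.2 z c then κ else 1) *
          yy X ε ε' t ζ κ h (X.nb z c) (X.bar c) (lab c) w) ∂μ
        = ∫⁻ w, (G' w + (G' w * (if X.Si ε ε' w.2 z c then κ else 1)) *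
          yy X ε ε' t ζ κ h (X.nb z c) (X.bar c) (lab c) w) ∂μ := by
          apply lintegral_congr
          intro w
          rw [Finset.prod_insert hc]
          simp only [hG']
          ring
      _ = ∫⁻ w, G' w ∂μ + ∫⁻ w, (G' w * (if X.Si ε ε' w.2 z c then κ else 1)) *
          yy X ε ε' t ζ κ h (X.nb z c) (X.bar c) (lab c) w ∂μ := lintegral_add_left mG' _
      _ ≤ ∫⁻ w, G' w ∂μ + ∫⁻ w, G' w * (if X.Si ε ε' w.2 z c then κ else 1) ∂μ :=
          add_le_add le_rfl (hBd _ _ _ _ (mG'.mul (mk c)) dGk)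
      _ ≤ ∫⁻ w, G' w ∂μ + ∫⁻ w, (G' w + κ * (G' w * ind (X.Si ε ε' w.2 z c))) ∂μ :=
          add_le_add le_rfl (lintegral_mono hk)
      _ = ∫⁻ w, G' w ∂μ + (∫⁻ w, G' w ∂μ + κ * ∫⁻ w, G' w * ind (X.Si ε ε' w.2 z c) ∂μ) := by
          have mi : Measurable fun w : Cfg H S L × Env H S =>
              G' w * ind (X.Si ε ε' w.2 z c) :=
            mG'.mul (measurable_ind (measurableSet_Si' X ε ε' z c))
          rw [lintegral_add_left mG', lintegral_const_mul _ mi]
      _ = ∫⁻ w, G' w ∂μ + (∫⁻ w, G' w ∂μ + κ * ENNReal.ofReal (ε - ε') * ∫⁻ w, G' w ∂μ) := by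
          rw [hst, mul_assoc]
      _ ≤ ∫⁻ w, G' w ∂μ + (∫⁻ w, G' w ∂μ + 1 * ∫⁻ w, G' w ∂μ) := by
          gcongr
      _ = 3 * ∫⁻ w, G' w ∂μ := by ring
      _ ≤ 3 * (3 ^ B.card * ∫⁻ w, G w ∂μ) := by gcongr
      _ = 3 ^ (insert c B).card * ∫⁻ w, G w ∂μ := by
          rw [Finset.card_insert_of_notMem hc, pow_succ]; ring

end Pool.Agent.Helper79.OE
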