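import Pool.Agent.Helper79.OE.AsmD
import Pool.Agent.Helper79.OE.DYPR
import Pool.Agent.Helper79.OE.DSTB
import Pool.Agent.Helper79.OE.DSTR
import Pool.Agent.Helper16.OE.DEQM
import Pool.Agent.Helper58.OE.DORD
import Pool.Agent.Helper26.OE.DMEO
import Pool.Agent.Helper30.OE.DMEA
import Pool.Agent.Helper3.OE.DBME
import Pool.Agent.Helper82.OE.DMARG
import Pool.Agent.Helper86.OE.DDIS
import Pool.Agent.Helper74.OE.DYME
import Pool.Agent.Helper81.OE.DYIN
import Pool.Agent.Helper56.OE.DYRT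
import Pool.Agent.Helper39.OE.DLIMA
import Pool.Agent.Helper39.OE.DCHG
import Pool.Agent.Helper81.OE.DINVS
import Pool.Agent.Helper44.OE.DEQB
import Pool.Agent.Helper18.OE.Limb

/-!
Project OE, block D: the statements of block D from the proved packets.
-/

open MeasureTheory Pool.Agent.Helper73.OE Pool.Agent.Helper78.OE
open scoped ENNReal

namespace Pool.Agent.Helper79.OE

theorem batchEquiv : BatchEquiv_stmt :=
  Pool.Agent.Helper44.OE.eqb Pool.Agent.Helper16.OE.eqm Pool.Agent.Helper58.OE.ord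

theorem batchMeas_of (hULO : UpdLoc_stmt) : BatchMeas_stmt :=
  Pool.Agent.Helper3.OE.bme (Pool.Agent.Helper30.OE.mea hULO Pool.Agent.Helper58.OE.ord
    Pool.Agent.Helper26.OE.meo)

theorem batch_of (hWit : Wit_stmt) (hMat : Matched_stmt) (hInd : Ind_stmt) (hLAB : LAB)
    (hFV : FV_stmt) (hULO : UpdLoc_stmt) : Batch_stmt :=
  batch_asm hWit hMat hInd hLAB hFV hULO Pool.Agent.Helper16.OE.eqm Pool.Agent.Helper58.OE.ord
    Pool.Agent.Helper26.OE.meo Pool.Agent.Helper30.OE.mea Pool.Agent.Helper3.OE.bme str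
    Pool.Agent.Helper82.OE.marg Pool.Agent.Helper86.OE.dis Pool.Agent.Helper74.OE.yme ypr
    Pool.Agent.Helper81.OE.yin Pool.Agent.Helper56.OE.yrt stb Pool.Agent.Helper39.OE.lima
    Pool.Agent.Helper18.OE.limb Pool.Agent.Helper81.OE.Invs.invs Pool.Agent.Helper39.OE.chg

end Pool.Agent.Helper79.OE
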