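import Pool.Agent.Helper35.OE.GoalsE

/-!
Project OE, packet INI2.
-/

open MeasureTheory Pool.Agent.Helper73.OE

namespace Pool.Agent.Helper79.OE

/-- Reindexing a product of equal factors by a bijection. -/
theorem map_reindex {ι E : Type} [MeasurableSpace E] (ν : Measure E) [IsProbabilityMeasure ν]
    (e : ι ≃ ι) :
    (Measure.infinitePi fun _ : ι => ν).map (fun x : ι → E => fun i => x (e.symm i)) =
      Measure.infinitePi fun _ : ι => ν := by
  have h := Measure.infinitePi_map_piCongrLeft (μ := fun _ : ι => ν) e
  have e' : (MeasurableEquiv.piCongrLeft (fun _ : ι => E) e : (ι → E) → ι → E) =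
      fun x i => x (e.symm i) := by
    funext x j
    have h1 := MeasurableEquiv.piCongrLeft_apply_apply e (β := fun _ : ι => E) x (e.symm j)
    rw [Equiv.apply_symm_apply] at h1
    exact h1
  rw [e'] at h
  exact h

theorem ini2 : Pool.Agent.Helper35.OE.G_INI2 := by
  intro H S L _ _ _ _ κ _ g
  have m1 : Measurable (Sys.actC g : Cfg H S L → Cfg H S L) := by
    rw [measurable_pi_iff]; intro v; exact measurable_pi_apply _
  have m2 : Measurable (Sys.actE g : Env H S → Env H S) := by
    rw [measurable_pi_iff]; intro v; exact measurable_pi_apply _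
  have hp : IsProbabilityMeasure (Sys.lamE H S) := by
    unfold Sys.lamE; infer_instance
  have h1 : (Measure.infinitePi fun _ : H => κ).map (Sys.actC g : Cfg H S L → Cfg H S L) =
      Measure.infinitePi fun _ : H => κ := map_reindex κ (Equiv.mulLeft g)
  have h2 : (Sys.lamE H S).map (Sys.actE g) = Sys.lamE H S :=
    map_reindex (volume : Measure (unitInterval × unitInterval))
      ((Equiv.mulLeft g).prodCongr (Equiv.refl S))
  have h3 := Measure.map_prod_map (Measure.infinitePi fun _ : H => κ) (Sys.lamE H S) m1 m2
  rw [h1, h2] at h3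
  exact h3.symm

end Pool.Agent.Helper79.OE
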