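import Pool.Agent.Helper79.OE.IfaceD
import Pool.Agent.Helper78.OE.GoalsC1

/-!
# Project OE (MP_fc0446_an), block D: one batch (Section 7 of Pool/Agent/Helper73/OE/paper.md)

All goals are closed statements `D_...`; complete proofs in words are in the docstrings.
Definitions: Pool/Agent/Helper73/OE/Defs.lean, geometry (already proved):
Pool/Agent/Helper73/OE/Geo.lean, `ind`: Pool/Agent/Helper78/OE/LawDefs.lean, `YY`, `YR`, `Dist`:
Pool/Agent/Helper79/OE/IfaceD.lean.
-/

open MeasureTheory Pool.Agent.Helper73.OE Pool.Agent.Helper78.OE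
open scoped ENNReal

namespace Pool.Agent.Helper79.OE

/-- The shift of a set of edges. -/
def shE {H S : Type} [Group H] (g : H) (O : Edges H S) : Edges H S := fun v s => O (g⁻¹ * v) s

/-- PACKET EQM (the update is equivariant). Proof. Let `f' = actC g f`, `O' = shE g O`. Then
`f' (g * v) = f v`, `O' (g * v) s ↔ O v s` (as `g⁻¹ * (g * v) = v`), `nb (g * v) s = g * nb v s`
(`nb_mul`), `dist (g * v) (g * z) = dist v z` (`dist_mul`), `g * z = g * v ↔ z = v`. Show one after
the other, by the same induction as in the definition and for all `v p y k`: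
`Long O' f' r (g * v) p y ↔ Long O f r v p y` (induction on `r`),
`flipP O' f' (g * z) n (g * v) p y = flipP O f z n v p y` (induction on `n`), the same for `flip` (at
`g * z`), `armP`, `ArmOk`, `triP` and `Av` (induction on `m`), `TR`, hence
`TRi P O' i (g * v) p y f' = actC g (TRi P O i v p y f)` and
`AS P O' f' (g * v) p y = AS P O f v p y`; for `AS` of the configuration after the move use the
statement for `TRi P O i v p y f` in the place of `f`. So `Cheap P O' (g * v) s u f' i ↔
Cheap P O v s u f i`: the two predicates of `i` are equal (`funext`, `propext`), so the chosen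
indices are equal. To compare two configurations at `z` write `z = g * (g⁻¹ * z)`. -/
def D_EQM : Prop :=
  ∀ {H S L : Type} [Group H] [Fintype L] (X : Sys H S L) (P : Par) (g : H) (O : Edges H S)
    (v : H) (s : S) (u : ℕ) (f : Cfg H S L),
    X.Upd P (shE g O) (g * v) s u (Sys.actC g f) = Sys.actC g (X.Upd P O v s u f)

/-- PACKET ORD (the list of the updates). Proof. First part: `l` and `l'` have the same members,
no repetition (`<` is irreflexive), so `l.Perm l'` (`List.perm_ext_iff_of_nodup`), and two lists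
which are permutations of each other and pairwise increasing for `prio` are equal
(`List.Perm.eq_of_pairwise` or `List.eq_of_perm_of_sorted`; the antisymmetry condition is vacuous:
`prio e < prio e'` and `prio e' < prio e` is impossible). Second part: let
`A = {e | Si ∧ e.1 ∈ Λ ∧ nb e.1 e.2 ∈ Λ ∧ Pos}`; it is finite (contained in `Λ ×ˢ univ`). For `e ∈ A`
`prio e` is `(η (rev e)).2` (as `Pos`), so by `Dist` and `rev_rev`, `prio` is injective on `A`. The
insertion sort (`List.insertionSort`) of `A.toFinset.toList` for the total transitive relation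
`prio e ≤ prio e'` is pairwise `≤` and without repetition, hence pairwise `<`, with the right
members; so `∃ l, IsOrd l`, and `ordL` is such a list (`dif_pos`, `Exists.choose_spec`). -/
def D_ORD : Prop :=
  ∀ {H S L : Type} [Group H] (X : Sys H S L) (ε ε' : ℝ) (η : Env H S) (Λ : Set H),
    (∀ l l' : List (H × S), X.IsOrd ε ε' η Λ l → X.IsOrd ε ε' η Λ l' → l = l') ∧
    (Finite S → Λ.Finite → Sys.Dist η → X.IsOrd ε ε' η Λ (X.ordL ε ε' η Λ))

/-- PACKET EQB (the batch is equivariant). Proof. Let `η' = actE g η`, `u' = actE g u`,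
`q' = actC g q` and for `Λ : Set H` let `gΛ = {z | g⁻¹ * z ∈ Λ}`.
(1) `η' (g * e.1, e.2) = η e` and `rev (g * e.1, e.2) = (g * (rev e).1, (rev e).2)` (`rev_mul`), so
`Op ε η' = shE g (Op ε η)`, `Si ε ε' η' (g * v) s ↔ Si ε ε' η v s`, the same for `Pos` and `prio`.
(2) `IsOrd η' gΛ (l.map (fun e => (g * e.1, e.2))) ↔ IsOrd η Λ l`, and every list is such an image
(of its image under `g⁻¹`). So by uniqueness (`D_ORD`), `ordL η' gΛ = (ordL η Λ).map ..` (if there is
no such list both are empty).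
(3) `dynL P (sd P u') (l.map ..) (shE g O) (actC g f) = actC g (dynL P (sd P u) l O f)`: induction
on `l` with `D_EQM` and `addE (shE g O) (g * e.1, e.2) = shE g (addE O e)` (`rev_mul`);
`sd P u' (g * e.1, e.2) = sd P u e`; `inside gΛ (shE g O) = shE g (inside Λ O)`.
So `dyn gΛ q' η' u' = actC g (dyn Λ q η u)`.
(4) For every `o` and `f`: `dyn Λ q' η' u' o = f` for all large finite `Λ` iff
`dyn Λ q η u (g⁻¹ * o) = f` for all large finite `Λ` (`Filter.eventually_atTop`; the translates of
the finite sets, `Finset.map (Equiv.mulLeft g).toEmbedding`, are all finite sets, and the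
translation is monotone with inverse the translation by `g⁻¹`). The two predicates of `f` are
equal, so the chosen values are equal; if there is no value both sides are `q (g⁻¹ * o)`. -/
def D_EQB : Prop := D_EQM → D_ORD → BatchEquiv_stmt

/-- PACKET ULO (an update in the volume `Λ` depends only on the configuration in `Λ`). Proof. All
edges of `O` have both ends in `Λ`; let `f z = f' z` for `z ∈ Λ`. For every `v ∈ Λ`, and all
`p y k z n m r`: `Long O f r v p y ↔ Long O f' r v p y`, `flipP O f z n v p y = flipP O f' z n v p y`,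
the same for `armP`, `ArmOk`, `Av`: the same inductions as in the definitions; the recursive calls are at
`nb v t` with `O v t` (or their value is not used), so again in `Λ`. So `AS P O f v p y = AS P O f' v p y`.
If `Av O M f m v p y k` then also `triP O f z m v p y k = triP O f' z m v p y k` (induction on `m`; the
edges of the run up to the centre are in `O`, so its vertices are in `Λ`), hence for an available
index `i`: `TRi P O i v p y f z = TRi P O i v p y f' z` for `z ∈ Λ`, and `AS` for the two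
configurations after the move agree again. As `pick .. = some i` implies `i ∈ AS` (definition of
`pick`), `Cheap` is the same predicate of `i` for `f` and `f'`, so the chosen indices are equal, and
`Upd .. f z = Upd .. f' z` for `z ∈ Λ` (cases of `Upd`; `v` and `nb v s` are in `Λ`). For `z ∉ Λ` and
`v ∈ Λ`: `flipP O f z n v p y = 1`, `armP O f z v t y = 1` (inductions), and
`triP O f z m v p y k = 1` if `Av O M f m v p y k`. So nothing changes outside `Λ`. (The second half is
the packet A_UPI of Pool/Agent/Helper75/OE/GoalsA.lean, it may be assumed.) -/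
def D_ULO : Prop := UpdLoc_stmt

/-- PACKET MEO (measurability of the list of the updates). Proof. First `{η | IsOrd ε ε' η Λ l}` is
measurable for every list `l`: `Pairwise` is a finite conjunction (induction on the list, or
`List.pairwise_iff_getElem`) of conditions `prio η e < prio η e'`, where `prio` is a measurable
function of `η`; the second condition is a countable intersection over `e : H × S` of conditions
`(e ∈ l) ↔ (Si ε ε' η e.1 e.2 ∧ _ ∈ Λ ∧ _ ∈ Λ ∧ Pos η e)`, and `Si`, `Pos` are (in)equalities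
between measurable functions of `η` (coordinates). By uniqueness (`D_ORD`): if some list satisfies
`IsOrd` then `ordL = l ↔ IsOrd l`; otherwise `ordL = []`. So `{η | ordL = l}` is `{IsOrd l}`, joined, if
`l = []`, with the complement of the countable union of all `{IsOrd l'}` (`List (H × S)` is
countable). -/
def D_MEO : Prop := D_ORD →
  ∀ {H S L : Type} [Group H] [Countable H] [Finite S] (X : Sys H S L) (ε ε' : ℝ) (Λ : Set H)
    (l : List (H × S)), MeasurableSet {η : Env H S | X.ordL ε ε' η Λ = l}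

/-- PACKET MEA (the dynamics in a finite volume is measurable). Proof. (1) If all edges of `O` and
all members of `l` are inside `Λ` (both ends), `q = q'` on `Λ` and `n e = n' e` for `e ∈ l`, then
`dynL P n l O q z = dynL P n' l O q' z` for `z ∈ Λ`, and `dynL P n l O q z = q z` for `z ∉ Λ`: induction
on `l` with `UpdLoc_stmt` (`addE O e` is inside `Λ` again). (2) The members of `ordL ε ε' η Λ` are
inside `Λ` (by the definition, `Exists.choose_spec`; or the list is empty), also all edges of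
`inside Λ (Op ε η)`. (3) Fix `z`. For `z ∉ Λ` the value is `w.1.1 z`. For `z ∈ Λ` it is a function of
the discrete data
`D w = (fun x : Λ => w.1.1 x, ordL ε ε' w.1.2 Λ, fun e : Λ × S => (Op ε w.1.2 e.1 e.2 : Prop),
fun e : Λ × S => sd P w.2 (e.1, e.2))` with values in the countable set
`(Λ → (S ≃ L)) × List (H × S) × (Λ × S → Prop) × (Λ × S → ℕ)`: by (1) if `D w = D w'` then the
values at `z` are equal. For every point `d`, `{w | D w = d}` is measurable (finite intersections
over `Λ`, `Λ × S`; `D_MEO` for the list; `{η | Op ε η v s}` is measurable; `Nat.measurable_floor`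
for `sd`). So the preimage of every set of values is a countable union of such sets (those of the
`d` for which the value belongs to the set). Finally `measurable_pi_iff`. -/
def D_MEA : Prop := UpdLoc_stmt → D_ORD → D_MEO →
  ∀ {H S L : Type} [Group H] [Countable H] [Fintype S] [Fintype L] (X : Sys H S L) (P : Par)
    (ε ε' : ℝ) (Λ : Finset H),
    Measurable fun w : (Cfg H S L × Env H S) × Seeds H S =>
      X.dyn P ε ε' (Λ : Set H) w.1.1 w.1.2 w.2

/-- PACKET BME (the batch is measurable). The hypothesis is the conclusion of MEA. Proof. Fix `o`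
(`measurable_pi_iff`). For `f : S ≃ L` the set `E f = {w | ∀ᶠ Λ in atTop, dyn Λ w o = f}` is
`⋃ Λ0, ⋂ Λ ≥ Λ0, {w | dyn Λ w o = f}`, measurable since `Finset H` is countable. Two different
values cannot both be eventual (`atTop` is not `⊥`). So `{w | batch w o = f}` is `E f` joined with
`{w | w.1.1 o = f} \ ⋃ f', E f'`. `S ≃ L` is finite and discrete. -/
def D_BME : Prop :=
  (∀ {H S L : Type} [Group H] [Countable H] [Fintype S] [Fintype L] (X : Sys H S L) (P : Par)
    (ε ε' : ℝ) (Λ : Finset H),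
    Measurable fun w : (Cfg H S L × Env H S) × Seeds H S =>
      X.dyn P ε ε' (Λ : Set H) w.1.1 w.1.2 w.2) → BatchMeas_stmt

/-- The strip formulas (Lemma 4.1) for the law `μ`. -/
def StripOK {H S L : Type} [Group H] (X : Sys H S L) (ε ε' : ℝ)
    (μ : Measure (Cfg H S L × Env H S)) : Prop :=
  ∀ (v : H) (s : S) (G : Cfg H S L × Env H S → ℝ≥0∞), Measurable G → X.DepOn (X.Sd v s) G →
    (∫⁻ w, G w * ind (X.Op ε w.2 v s) ∂μ = ENNReal.ofReal (1 - ε) * ∫⁻ w, G w ∂μ) ∧
    (∫⁻ w, G w * ind (X.Si ε ε' w.2 v s) ∂μ = ENNReal.ofReal (ε - ε') * ∫⁻ w, G w ∂μ)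

/-- PACKET STR. `LAB` is in Pool/Agent/Helper78/OE/GoalsC1.lean. Proof. `Ind_stmt` with
`φ x = ind (¬ ((x.1.1 : ℝ) ^ 2 ≤ ε ∧ (x.2.1 : ℝ) ^ 2 ≤ ε))`, resp.
`φ x = ind (((x.1.1 : ℝ) ^ 2 ≤ ε ∧ (x.2.1 : ℝ) ^ 2 ≤ ε) ∧ ¬ ((x.1.1 : ℝ) ^ 2 ≤ ε' ∧ ..))`: with
`x = (w.2 (v, s), w.2 (rev (v, s)))` these are `ind (Op ε w.2 v s)` and `ind (Si ε ε' w.2 v s)`, by
definition of `Op`, `Si`, `Cl`. Their integrals are given by `LAB`; `φ` is measurable
(`measurable_ind`). -/
def D_STR : Prop := LAB → Ind_stmt →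
  ∀ {H S L : Type} [Group H] [Countable H] [Fintype S] [Fintype L] (X : Sys H S L) (ε ε' : ℝ)
    (μ : Measure (Cfg H S L × Env H S)), 0 ≤ ε' → ε' ≤ ε → ε ≤ 1 → X.IsStar ε μ →
    StripOK X ε ε' μ

/-- PACKET MARG (the marginal of a law with the property (*)). Proof. Let `A` be measurable in
`Env H S`; apply `IsStar` with `o = 1`, `Λ = {1}` (`PC 1 {1}`: `dist 1 1 = 0`) and
`F (q, η) = indicator of A at η`: `starAvg Λ O (fun _ => c) = c` (`starSum` of a constant is the constant times
`starSum` of `1`, `starSum_one_ne_zero`, `starSum_ne_top` of Helper73/OE/Consist.lean). So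
`μ (Prod.snd ⁻¹' A) = lamE A`. With `A = univ`: `μ` is a probability measure (`lamE` is an
`infinitePi` of probability measures: unfold it and use `inferInstance`). -/
def D_MARG : Prop :=
  ∀ {H S L : Type} [Group H] [Countable H] [Fintype S] [Fintype L] (X : Sys H S L) (ε : ℝ)
    (μ : Measure (Cfg H S L × Env H S)), X.IsStar ε μ →
    IsProbabilityMeasure μ ∧ μ.map Prod.snd = Sys.lamE H S

/-- PACKET DIS. Proof. `H × S` is countable, so it is enough (`ae_all_iff`) that for fixed `e ≠ e'`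
almost surely `(η e).2 ≠ (η e').2`. The law of `(η e, η e')` under `infinitePi` is the product (or use
`lintegral_resample` of Helper73/OE/Resample.lean: the probability of `(η e).2 = (η e').2` is
`∫ ∫ ind (y.2 = (η e').2) dy dη` with `y` the new value at `e`, and for every number `c` the set
`{y | y.2 = c}` of `unitInterval × unitInterval` is null: `Measure.prod_prod`, `volume {c} = 0`). -/
def D_DIS : Prop :=
  ∀ {H S : Type} [Countable H] [Countable S], ∀ᵐ η ∂(Sys.lamE H S), Sys.Dist η

/-- The functional `YY` as a function of the state. -/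
noncomputable def yy {H S L : Type} [Group H] [Fintype S] (X : Sys H S L) (ε ε' : ℝ)
    (t ζ κ : ℝ≥0∞) (h : ℕ) (z : H) (r : S) (l : L) (w : Cfg H S L × Env H S) : ℝ≥0∞ :=
  X.YY (X.Op ε w.2) (X.Si ε ε' w.2) w.1 t ζ κ h z r l

/-- The functional `YR` as a function of the state. -/
noncomputable def yr {H S L : Type} [Group H] [Fintype S] (X : Sys H S L) (ε ε' : ℝ)
    (t ζ κ : ℝ≥0∞) (o : H) (w : Cfg H S L × Env H S) : ℝ≥0∞ :=
  X.YR (X.Op ε w.2) (X.Si ε ε' w.2) w.1 t ζ κ o

/-- PACKET YME. Proof: inductions on `h`, for all `z r l`. Measurability: sums, products and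
`if` of measurable functions; the label `tau (q z r)` of the recursive call takes finitely many
values: replace the call by the sum over `a : L` of `if w.1 z r = a then yy .. h .. (tau a) w else 0`;
`{w | Op ε w.2 z c}`, `{w | Si ε ε' w.2 z c}`, `{w | w.1 z c = l}` are measurable. Dependence: `z` and all
`nb z c`, `c ≠ r`, are in `Sd z r` (`self_mem_Sd`, `branch_subset`), and
`Sd (nb z c) (bar c) ⊆ Sd z r` (`branch_subset`); `Op ε η z c` and `Si ε ε' η z c` depend on
`η (z, c)` and `η (rev (z, c))`, directed edges with both ends in `Sd z r`. Monotone: `YY` at `0` is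
`0`, and the right side of the recursion is monotone in the values of `YY`. -/
def D_YME : Prop :=
  ∀ {H S L : Type} [Group H] [Fintype S] [Fintype L] (X : Sys H S L) (ε ε' : ℝ)
    (t ζ κ : ℝ≥0∞) (h : ℕ) (z : H) (r : S) (l : L),
    Measurable (yy X ε ε' t ζ κ h z r l) ∧ X.DepOn (X.Sd z r) (yy X ε ε' t ζ κ h z r l) ∧
    ∀ w, yy X ε ε' t ζ κ h z r l w ≤ yy X ε ε' t ζ κ (h + 1) z r l w

/-- The bound of Lemma 7.3 for the height `h`. -/
def Bd {H S L : Type} [Group H] [Fintype S] (X : Sys H S L) (ε ε' : ℝ) (t ζ κ : ℝ≥0∞)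
    (μ : Measure (Cfg H S L × Env H S)) (h : ℕ) : Prop :=
  ∀ (z : H) (r : S) (l : L) (G : Cfg H S L × Env H S → ℝ≥0∞), Measurable G →
    X.DepOn (X.Past z r) G → ∫⁻ w, G w * yy X ε ε' t ζ κ h z r l w ∂μ ≤ ∫⁻ w, G w ∂μ

open Classical in
/-- PACKET YPR (stripping the children one by one). Proof. Write
`k c w = if Si ε ε' w.2 z c then κ else 1`. Induction on `A` (`Finset.induction_on`). Empty: equality.
`A = insert c B`, `c ∉ B`: let `G'` be `G` times the product over `B`. It is measurable and depends on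
`Sd z c`: `G` by hypothesis, and for `c' ∈ B`, `c' ≠ c`: `Si` at `(z, c')` depends on `w.2 (z, c')` and
`w.2 (rev (z, c'))`, with the ends `z` and `nb z c'` in `Sd z c` (`self_mem_Sd`, `branch_subset`),
`yy h (nb z c') (bar c') _` depends on `Sd (nb z c') (bar c') ⊆ Sd z c` (`D_YME`, `branch_subset`).
`∫ G' (1 + k c * yy) = ∫ G' + ∫ (G' * k c) * yy ≤ ∫ G' + ∫ G' * k c` by `Bd` with `G' * k c`, which
depends on `Past (nb z c) (bar c) = insert (nb z c) (Sd z c)` (`Past_nb`). As
`k c ≤ 1 + κ * ind (Si ..)`: `∫ G' * k c ≤ ∫ G' + κ * (ofReal (ε - ε') * ∫ G') ≤ 2 ∫ G'` by `StripOK`. Total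
`≤ 3 * ∫ G' ≤ 3 * 3 ^ B.card * ∫ G`, by the induction hypothesis (its assumption for `B` is part of
that for `A`). -/
def D_YPR : Prop := D_YME →
  ∀ {H S L : Type} [Group H] [Fintype S] [Fintype L] (X : Sys H S L) (ε ε' : ℝ) (t ζ κ : ℝ≥0∞)
    (μ : Measure (Cfg H S L × Env H S)), StripOK X ε ε' μ → κ * ENNReal.ofReal (ε - ε') ≤ 1 →
    ∀ h : ℕ, Bd X ε ε' t ζ κ μ h →
    ∀ (z : H) (A : Finset S) (lab : S → L) (G : Cfg H S L × Env H S → ℝ≥0∞), Measurable G →
      (∀ c ∈ A, X.DepOn (X.Sd z c) G) →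
      ∫⁻ w, G w * ∏ c ∈ A, (1 + (if X.Si ε ε' w.2 z c then κ else 1) *
        yy X ε ε' t ζ κ h (X.nb z c) (X.bar c) (lab c) w) ∂μ ≤ 3 ^ A.card * ∫⁻ w, G w ∂μ

/-- PACKET YIN (Lemma 7.3). Proof. Induction on `h`; `yy 0 = 0`. Step: let `G` depend on
`Past z r`. `∫ G * yy (h+1) z r l` is `t` times the sum of
(1) for `c ≠ r`: `∫ G * (if q z c = l ∧ Op z c then yy h (nb z c) (bar c) (tau (q z r)) else 0)` and
(2) `ζ` times `∫ G * ∏ c ∈ univ.erase r, (1 + .. * yy h (nb z c) (bar c) (tau (q z r)))`.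
In both write `G = ∑ a : L, G * ind (q z r = a)` to make the label `tau (q z r) = tau a` constant.
(1): `G * ind (q z r = a) * ind (q z c = l) * ind (Op z c)` is measurable and depends on
`Past (nb z c) (bar c) = insert (nb z c) (Sd z c)` (`Past z r ⊆ Sd z c` by `Past_subset`), so by the
induction hypothesis the term is at most the sum over `a` of the integrals of these functions, i.e.
`∫ G * ind (q z c = l) * ind (Op z c) = ofReal (1 - ε) * ∫ G * ind (q z c = l)` (`StripOK`). Since
`q z` is injective at most one `c` has `q z c = l`, the sum over `c` is at most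
`ofReal (1 - ε) * ∫ G`. (2): `D_YPR` (conclusion as hypothesis) with `A = univ.erase r`,
`lab = fun _ => tau a`, `G * ind (q z r = a)` (it depends on `Past z r ⊆ Sd z c` for `c ≠ r`): at most
`3 ^ (card S - 1) * ∑ a, ∫ G * ind (q z r = a) = 3 ^ (card S - 1) * ∫ G`. Total at most
`t * (ofReal (1 - ε) + ζ * 3 ^ (card S - 1)) * ∫ G ≤ ∫ G`. -/
def D_YIN : Prop := D_YME → D_YPR →
  ∀ {H S L : Type} [Group H] [Fintype S] [Fintype L] (X : Sys H S L) (ε ε' : ℝ) (t ζ κ : ℝ≥0∞)
    (μ : Measure (Cfg H S L × Env H S)), StripOK X ε ε' μ → κ * ENNReal.ofReal (ε - ε') ≤ 1 →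
    t * (ENNReal.ofReal (1 - ε) + ζ * 3 ^ (Fintype.card S - 1)) ≤ 1 →
    ∀ h : ℕ, Bd X ε ε' t ζ κ μ h

/-- PACKET YRT. Proof. `yr` is the supremum over `h` of
`t * (ζ * ∏ c, (1 + (if Si then κ else 1) * yy h (nb o c) (bar c) (e0 c)))`, measurable and monotone
in `h` (`D_YME`): monotone convergence (`lintegral_iSup`). Every term has integral at most
`t * ζ * 3 ^ card S * ∫ 1`: `D_YPR` with `z = o`, `A = univ`, `lab = e0`, `G = 1` (if `t` or `ζ` is
`⊤` use `lintegral_const_mul`, which needs only measurability). -/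
def D_YRT : Prop := D_YME → D_YPR →
  ∀ {H S L : Type} [Group H] [Fintype S] [Fintype L] (X : Sys H S L) (ε ε' : ℝ) (t ζ κ : ℝ≥0∞)
    (μ : Measure (Cfg H S L × Env H S)) [IsProbabilityMeasure μ], StripOK X ε ε' μ →
    κ * ENNReal.ofReal (ε - ε') ≤ 1 → (∀ h : ℕ, Bd X ε ε' t ζ κ μ h) → ∀ o : H,
    Measurable (yr X ε ε' t ζ κ o) ∧
      ∫⁻ w, yr X ε ε' t ζ κ o w ∂μ ≤ t * (ζ * 3 ^ Fintype.card S)

/-- PACKET STB (deterministic: the value in a finite volume stabilizes). Proof. As `1 < t` and
`y ≠ ⊤` there is `N` with `y < t ^ N`, and then `t ^ m * b ^ k ≤ y` implies `t ^ m ≤ y`, so `m ≤ N`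
(`ENNReal.tendsto_pow_atTop_nhds_top_iff` or `one_add_mul_le_pow`; monotone powers). So if `v ∉ Λ` and `N < dist o v` the
values at `o` for `Λ` and `insert v Λ` are equal. Let `B` be the finite set of the ball (`finite_ball`).
For every finite `Λ ⊇ B`: `dyn Λ o = dyn B o`, by adding the vertices of `Λ \ B` one at a time
(`Finset.induction_on`), each has distance `> N` from `o`. So for all large `Λ`, `dyn Λ o` is
`f := dyn B o`; by the uniqueness of the eventual value (`atTop` is not `⊥`) the chosen value in `batch` is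
`f`. -/
def D_STB : Prop :=
  ∀ {H S L : Type} [Group H] [Finite S] [Fintype L] (X : Sys H S L) (P : Par) (ε ε' : ℝ)
    (q : Cfg H S L) (η : Env H S) (u : Seeds H S) (o : H) (t b y : ℝ≥0∞), 1 < t → 1 ≤ b →
    y ≠ ⊤ →
    (∀ (Λ : Finset H) (v : H), v ∉ Λ →
      X.dyn P ε ε' (Λ : Set H) q η u o ≠ X.dyn P ε ε' (insert v (Λ : Set H)) q η u o →
      ∃ m k : ℕ, 1 ≤ k ∧ X.dist o v ≤ m ∧ t ^ m * b ^ k ≤ y) →
    ∃ N : ℕ, (∀ m k : ℕ, t ^ m * b ^ k ≤ y → m ≤ N) ∧
      ∀ Λ : Finset H, X.ball o N ⊆ (Λ : Set H) →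
        X.batch P ε ε' q η u o = X.dyn P ε ε' (Λ : Set H) q η u o

/-- The batch is a stable limit of the finite volumes. -/
def Good {H S L : Type} [Group H] [Fintype L] (X : Sys H S L) (P : Par) (ε ε' : ℝ)
    (w : (Cfg H S L × Env H S) × Seeds H S) : Prop :=
  ∀ o : H, ∃ N : ℕ, ∀ Λ : Finset H, X.ball o N ⊆ (Λ : Set H) →
    X.batch P ε ε' w.1.1 w.1.2 w.2 o = X.dyn P ε ε' (Λ : Set H) w.1.1 w.1.2 w.2 o

/-- PACKET LIMA (the law of the limit, bounded functions). The first two hypotheses are the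
measurability of `dyn` and `batch`. Proof. Let `B n` be the finite set of the ball `ball o n`
(`finite_ball`), `PC o (B n)` (`PC_ball`), and `Λ ⊆ B n` for `n ≥ n0`. By `FV_stmt` for `B n`
(`F` depends also only on the configuration in `B n`) and `StarCons_stmt` (or `starAvg_mono` of
Helper73/OE/Consist.lean), `∫ F (dyn (B n) w, w.1.2) = ∫ starAvg Λ (Op ε' η) (F (·, η)) dη` for
`n ≥ n0`. For almost every `w` (the good ones) `F (dyn (B n) w, w.1.2) = F (batch w, w.1.2)` for all
large `n`: for `z ∈ Λ` let `N z` be as in `Good`; if `n ≥ dist o z + N z` for all `z ∈ Λ` then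
`ball z (N z) ⊆ B n` (triangle inequality; prove it from `step`/`par` by induction along the geodesic,
`exists_parent`, or avoid it: every finite set is contained in `B n` for large `n`, as every vertex
`z` is in `ball o (dist o z)`; apply this to the finite set of `ball z (N z)`), so
`dyn (B n) w` and `batch w` agree on `Λ`. Dominated convergence (bound `C`, probability measure;
`tendsto_lintegral_of_dominated_convergence`) gives the equation; the left side is
`∫ F ∂next` by `lintegral_map`. -/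
def D_LIMA : Prop :=
  FV_stmt →
  ∀ {H S L : Type} [Group H] [Countable H] [Fintype S] [Fintype L] (X : Sys H S L) (P : Par)
    (ε ε' : ℝ) (μ : Measure (Cfg H S L × Env H S)) [IsProbabilityMeasure μ],
    (∀ Λ : Finset H, Measurable fun w : (Cfg H S L × Env H S) × Seeds H S =>
      X.dyn P ε ε' (Λ : Set H) w.1.1 w.1.2 w.2) →
    (Measurable fun w : (Cfg H S L × Env H S) × Seeds H S =>
      X.batch P ε ε' w.1.1 w.1.2 w.2) →
    1 ≤ P.cap → 0 < ε' → ε' < ε → X.IsStar ε μ →
    (∀ᵐ w ∂(μ.prod (Sys.lamS H S)), Good X P ε ε' w) →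
    ∀ (o : H) (Λ : Finset H), X.PC o (Λ : Set H) →
    ∀ F : Cfg H S L × Env H S → ℝ≥0∞, Measurable F →
      (∀ q q' η, (∀ z ∈ Λ, q z = q' z) → F (q, η) = F (q', η)) →
      ∀ C : ℝ≥0∞, C ≠ ⊤ → (∀ w, F w ≤ C) →
      ∫⁻ w, F w ∂(X.next P ε ε' μ) =
        ∫⁻ η, X.starAvg Λ (X.Op ε' η) (fun q => F (q, η)) ∂(Sys.lamE H S)

/-- PACKET LIMB (from bounded functions to all). Proof. `F k w = min (F w) k` (`k : ℕ`) is
measurable, bounded by `k`, increasing in `k` with supremum `F w`, and depends on the configuration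
through `Λ`. `∫ F = ⨆ k, ∫ F k` (`lintegral_iSup`). For every `O`:
`starAvg Λ O (F (·, η)) = ⨆ k, starAvg Λ O (F k (·, η))`: `starSum` is a finite sum of terms
`if MA .. then F (glue Λ f, η) else 0`, monotone in `k` (`ENNReal.finsetSum_iSup_of_monotone`), and
`ENNReal.iSup_div`. `η ↦ starAvg Λ (Op ε' η) (F k (·, η))` is measurable: `{η | MA (Op ε' η) Λ (glue Λ f)}`
is measurable (a countable intersection over `(v, s)` of sets `{η | Op ε' η v s → ..}`, or empty
conditions), finite sums and quotients of measurable functions. So again `lintegral_iSup`. -/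
def D_LIMB : Prop :=
  ∀ {H S L : Type} [Group H] [Countable H] [Fintype S] [Fintype L] (X : Sys H S L) (ε' : ℝ)
    (ν : Measure (Cfg H S L × Env H S)),
    (∀ (o : H) (Λ : Finset H), X.PC o (Λ : Set H) →
    ∀ F : Cfg H S L × Env H S → ℝ≥0∞, Measurable F →
      (∀ q q' η, (∀ z ∈ Λ, q z = q' z) → F (q, η) = F (q', η)) →
      ∀ C : ℝ≥0∞, C ≠ ⊤ → (∀ w, F w ≤ C) →
      ∫⁻ w, F w ∂ν =
        ∫⁻ η, X.starAvg Λ (X.Op ε' η) (fun q => F (q, η)) ∂(Sys.lamE H S)) →
    X.IsStar ε' ν

/-- PACKET INVS (mass transport). Proof. Let `T g ((q, η), u) = ((actC g q, actE g η), actE g u)`. It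
is a measurable equivalence (inverse `T g⁻¹`) and preserves `μ.prod lamS`: `Sys.Inv` for the first
factor, and `lamS` is invariant under `actE g` (reindexing by the injection `e ↦ (g⁻¹ * e.1, e.2)`:
`Measure.map_infinitePi_infinitePi_of_inj`), `Measure.map_prod_map`. From `D_EQM` and
`Op ε (actE g η) = shE g (Op ε η)` etc. (`rev_mul`):
`ChSt (T g w) (g * v) s (g * z) ↔ ChSt w v s z`. So `{w | ChSt w v s 1}` is the preimage under `T v⁻¹`
of `{w | ChSt w 1 s v⁻¹}`, and they have the same measure (`MeasurePreserving.measure_preimage_equiv`,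
no measurability needed). Sum over `v`, with `v ↦ v⁻¹` (`Equiv.tsum_eq (Equiv.inv H)`). -/
def D_INVS : Prop := D_EQM →
  ∀ {H S L : Type} [Group H] [Countable H] [Fintype S] [Fintype L] (X : Sys H S L) (P : Par)
    (ε ε' : ℝ) (μ : Measure (Cfg H S L × Env H S)) [IsProbabilityMeasure μ], Sys.Inv μ →
    ∀ s : S, ∑' v : H, (μ.prod (Sys.lamS H S)) {w | X.ChSt P ε ε' w.1.1 w.1.2 w.2 v s 1} =
      X.cost P ε ε' μ s

/-- PACKET CHG (7.7 from its deterministic part). Proof. Let `ρ = μ.prod lamS`. For almost every `w`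
with `batch 1 ≠ w.1.1 1`: take `N` from the first a.e. hypothesis and the finite set `Λ` of the ball
`ball 1 N` (`finite_ball`); then `dyn Λ 1 = batch 1 ≠ w.1.1 1`, take `m`, `k` from the second one;
`m ≤ N`, so `ball 1 m ⊆ Λ` (`ball_mono`). If `k = 1`: there are `v`, `s` with `ChSt v s 1`. If
`k ≥ 2`: `b ^ 2 ≤ b ^ k ≤ t ^ m * b ^ k ≤ Y w.1`. So up to a null set the event is contained in
`{w | b ^ 2 ≤ Y w.1}` joined with the sets `{w | ChSt v s 1}`, countably many. The measure is at most
(Markov, `mul_meas_ge_le_lintegral`, and `ρ (A ×ˢ univ) = μ A`; or Markov for `ρ` and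
`∫ Y w.1 ∂ρ = ∫ Y ∂μ`) `(∫ Y) / b ^ 2` plus `∑' v, ∑ s, ρ {ChSt v s 1}` (`measure_iUnion_le`,
exchange the sums). -/
def D_CHG : Prop :=
  ∀ {H S L : Type} [Group H] [Countable H] [Fintype S] [Fintype L] (X : Sys H S L) (P : Par)
    (ε ε' : ℝ) (μ : Measure (Cfg H S L × Env H S)) [IsProbabilityMeasure μ]
    (Y : Cfg H S L × Env H S → ℝ≥0∞), Measurable Y → ∀ t b : ℝ≥0∞, 1 ≤ t → 1 ≤ b → b ≠ ⊤ →
    (∀ᵐ w ∂(μ.prod (Sys.lamS H S)), ∃ N : ℕ, (∀ m k : ℕ, t ^ m * b ^ k ≤ Y w.1 → m ≤ N) ∧
      ∀ Λ : Finset H, X.ball 1 N ⊆ (Λ : Set H) →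
        X.batch P ε ε' w.1.1 w.1.2 w.2 1 = X.dyn P ε ε' (Λ : Set H) w.1.1 w.1.2 w.2 1) →
    (∀ᵐ w ∂(μ.prod (Sys.lamS H S)), ∀ Λ : Finset H,
      X.dyn P ε ε' (Λ : Set H) w.1.1 w.1.2 w.2 1 ≠ w.1.1 1 →
      ∃ m k : ℕ, 1 ≤ k ∧ (k = 1 → X.ball 1 m ⊆ (Λ : Set H) →
        ∃ v s, X.ChSt P ε ε' w.1.1 w.1.2 w.2 v s 1) ∧ t ^ m * b ^ k ≤ Y w.1) →
    (∀ s : S, ∑' v : H, (μ.prod (Sys.lamS H S)) {w | X.ChSt P ε ε' w.1.1 w.1.2 w.2 v s 1} ≤
      X.cost P ε ε' μ s) →
    (μ.prod (Sys.lamS H S)) {w | X.batch P ε ε' w.1.1 w.1.2 w.2 1 ≠ w.1.1 1} ≤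
      (∫⁻ w, Y w ∂μ) / b ^ 2 + ∑ s : S, X.cost P ε ε' μ s

end Pool.Agent.Helper79.OE
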