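import Pool.Agent.Helper79.OE.GoalsD

/-!
Project OE, block D: `Batch_stmt` from the packets.
-/

open MeasureTheory Pool.Agent.Helper73.OE Pool.Agent.Helper78.OE
open scoped ENNReal

namespace Pool.Agent.Helper79.OE

theorem num_t {e0 ε : ℝ} {n : ℕ} (h0 : 0 < e0) (h1 : e0 ≤ ε) (h2 : ε ≤ 1) :
    ENNReal.ofReal (1 + e0 / 4) * (ENNReal.ofReal (1 - ε) +
      ENNReal.ofReal (e0 / (4 * 3 ^ n)) * 3 ^ n) ≤ 1 := by
  have h3 : (3 : ℝ≥0∞) ^ n = ENNReal.ofReal (3 ^ n) := by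
    rw [ENNReal.ofReal_pow (by norm_num)]
    norm_num
  have hp : (0 : ℝ) < 3 ^ n := by positivity
  rw [h3, ← ENNReal.ofReal_mul (by positivity), ← ENNReal.ofReal_add (by linarith) (by positivity),
    ← ENNReal.ofReal_mul (by positivity)]
  have h4 : e0 / (4 * 3 ^ n) * 3 ^ n = e0 / 4 := by
    field_simp
  rw [h4, ← ENNReal.ofReal_one]
  apply ENNReal.ofReal_le_ofReal
  nlinarith

theorem num_y {e0 : ℝ} {n : ℕ} (hn : 1 ≤ n) (h0 : 0 < e0) (h2 : e0 ≤ 1) :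
    ENNReal.ofReal (1 + e0 / 4) * (ENNReal.ofReal (e0 / (4 * 3 ^ (n - 1))) * 3 ^ n) ≤ 1 := by
  have h3 : (3 : ℝ≥0∞) ^ n = ENNReal.ofReal (3 ^ n) := by
    rw [ENNReal.ofReal_pow (by norm_num)]
    norm_num
  have hp : (0 : ℝ) < 3 ^ (n - 1) := by positivity
  rw [h3, ← ENNReal.ofReal_mul (by positivity), ← ENNReal.ofReal_mul (by positivity)]
  have h5 : (3 : ℝ) ^ n = 3 * 3 ^ (n - 1) := by
    conv_lhs => rw [← Nat.sub_add_cancel hn]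
    rw [pow_succ]; ring
  have h4 : e0 / (4 * 3 ^ (n - 1)) * 3 ^ n = 3 * e0 / 4 := by
    rw [h5]
    field_simp
  rw [h4, ← ENNReal.ofReal_one]
  apply ENNReal.ofReal_le_ofReal
  nlinarith

theorem batch_asm (hWit : Wit_stmt) (hMat : Matched_stmt) (hInd : Ind_stmt) (hLAB : LAB)
    (hFV : FV_stmt) (hULO : UpdLoc_stmt) (hEQM : D_EQM) (hORD : D_ORD) (hMEO : D_MEO)
    (hMEA : D_MEA) (hBME : D_BME) (hSTR : D_STR) (hMARG : D_MARG) (hDIS : D_DIS) (hYME : D_YME)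
    (hYPR : D_YPR) (hYIN : D_YIN) (hYRT : D_YRT) (hSTB : D_STB) (hLIMA : D_LIMA)
    (hLIMB : D_LIMB) (hINVS : D_INVS) (hCHG : D_CHG) : Batch_stmt := by
  intro H S L _ _ _ _ X h3 J M e0 he0
  obtain ⟨CR, hCR⟩ := hWit X h3 J M
  have hn : 1 ≤ Fintype.card S := by rw [X.card_eq]; omega
  set zr : ℝ := e0 / (4 * 3 ^ (Fintype.card S - 1)) with hzr
  have hzr0 : 0 < zr := by positivity
  refine ⟨zr ^ CR, by positivity, ?_⟩
  intro cap hcap ε ε' he1 he2 he3 he4 hθ μ hstar hinv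
  have he01 : e0 ≤ 1 := he1.trans he2
  have hpr : IsProbabilityMeasure μ := (hMARG X ε μ hstar).1
  have hδ : 0 < ε - ε' := by linarith
  have hδ1 : ε - ε' ≤ 1 := by linarith
  set t : ℝ≥0∞ := ENNReal.ofReal (1 + e0 / 4) with ht
  set ζ : ℝ≥0∞ := ENNReal.ofReal zr with hζ
  set κ : ℝ≥0∞ := ENNReal.ofReal (1 / (ε - ε')) with hκ
  have ht1 : 1 < t := by
    rw [ht, ← ENNReal.ofReal_one]
    exact (ENNReal.ofReal_lt_ofReal_iff (by positivity)).2 (by linarith)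
  have hζ1 : ζ ≤ 1 := by
    rw [hζ, ← ENNReal.ofReal_one]
    apply ENNReal.ofReal_le_ofReal
    rw [hzr, div_le_one (by positivity)]
    have : (1 : ℝ) ≤ 3 ^ (Fintype.card S - 1) := one_le_pow₀ (by norm_num)
    nlinarith
  have hκ1 : 1 ≤ κ := by
    rw [hκ, ← ENNReal.ofReal_one]
    apply ENNReal.ofReal_le_ofReal
    rw [le_div_iff₀ hδ]; linarith
  have hκδ : κ * ENNReal.ofReal (ε - ε') ≤ 1 := by
    rw [hκ, ← ENNReal.ofReal_mul (by positivity), one_div, inv_mul_cancel₀ hδ.ne',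
      ENNReal.ofReal_one]
  have hb : ζ ^ CR * κ = ENNReal.ofReal (zr ^ CR / (ε - ε')) := by
    rw [hζ, hκ, ← ENNReal.ofReal_pow hzr0.le, ← ENNReal.ofReal_mul (by positivity)]
    congr 1
    ring
  have hb1 : 1 ≤ ζ ^ CR * κ := by
    rw [hb, ← ENNReal.ofReal_one]
    apply ENNReal.ofReal_le_ofReal
    rw [le_div_iff₀ hδ]; linarith
  have hbt : ζ ^ CR * κ ≠ ⊤ := by rw [hb]; exact ENNReal.ofReal_ne_top
  have strip : StripOK X ε ε' μ := hSTR hLAB hInd X ε ε' μ he3.le he4.le he2 hstar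
  have bd : ∀ h : ℕ, Bd X ε ε' t ζ κ μ h :=
    hYIN hYME hYPR X ε ε' t ζ κ μ strip hκδ (num_t he0 he1 he2)
  have yrt := hYRT hYME hYPR X ε ε' t ζ κ μ strip hκδ bd
  have hint : ∀ o : H, ∫⁻ w, yr X ε ε' t ζ κ o w ∂μ ≤ 1 := fun o =>
    (yrt o).2.trans (num_y hn he0 he01)
  have mdyn : ∀ Λ : Finset H, Measurable fun w : (Cfg H S L × Env H S) × Seeds H S =>
      X.dyn ⟨J, M, cap⟩ ε ε' (Λ : Set H) w.1.1 w.1.2 w.2 :=
    fun Λ => hMEA hULO hORD hMEO X ⟨J, M, cap⟩ ε ε' Λ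
  have mbatch : Measurable fun w : (Cfg H S L × Env H S) × Seeds H S =>
      X.batch ⟨J, M, cap⟩ ε ε' w.1.1 w.1.2 w.2 :=
    hBME (fun X P ε ε' Λ => hMEA hULO hORD hMEO X P ε ε' Λ) X ⟨J, M, cap⟩ ε ε'
  -- the good states
  have g1 : ∀ᵐ w ∂μ, X.MA (X.Op ε w.2) Set.univ w.1 := hMat X ε μ hstar
  have g2 : ∀ᵐ w ∂μ, Sys.Dist w.2 := by
    have h := hDIS (H := H) (S := S)
    rw [← (hMARG X ε μ hstar).2] at h
    exact ae_of_ae_map measurable_snd.aemeasurable h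
  have g3 : ∀ᵐ w ∂μ, ∀ o : H, yr X ε ε' t ζ κ o w < ⊤ := by
    rw [ae_all_iff]
    intro o
    exact ae_lt_top (yrt o).1 ((hint o).trans_lt ENNReal.one_lt_top).ne
  have g4 : ∀ᵐ w ∂(μ.prod (Sys.lamS H S)), X.MA (X.Op ε w.1.2) Set.univ w.1.1 ∧
      Sys.Dist w.1.2 ∧ ∀ o : H, yr X ε ε' t ζ κ o w.1 < ⊤ := by
    have h := g1.and (g2.and g3)
    exact Measure.quasiMeasurePreserving_fst.ae h
  have g5 : ∀ᵐ w ∂(μ.prod (Sys.lamS H S)), ∀ o : H, ∃ N : ℕ,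
      (∀ m k : ℕ, t ^ m * (ζ ^ CR * κ) ^ k ≤ yr X ε ε' t ζ κ o w.1 → m ≤ N) ∧
      ∀ Λ : Finset H, X.ball o N ⊆ (Λ : Set H) →
        X.batch ⟨J, M, cap⟩ ε ε' w.1.1 w.1.2 w.2 o =
          X.dyn ⟨J, M, cap⟩ ε ε' (Λ : Set H) w.1.1 w.1.2 w.2 o := by
    filter_upwards [g4] with w hw o
    refine hSTB X ⟨J, M, cap⟩ ε ε' w.1.1 w.1.2 w.2 o t (ζ ^ CR * κ) (yr X ε ε' t ζ κ o w.1)
      ht1 hb1 (hw.2.2 o).ne ?_
    intro Λ v hv hne
    obtain ⟨m, k, hk, hm, h⟩ :=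
      (hCR cap hcap ε ε' w.1.1 w.1.2 w.2 he4.le hw.1 hw.2.1 o).1 Λ v hv hne
    exact ⟨m, k, hk, hm, h t ζ κ ht1.le hζ1 hκ1⟩
  refine ⟨?_, ?_⟩
  · refine hLIMB X ε' _ ?_
    intro o Λ hΛ F hF hdep C hC hFC
    refine hLIMA hFV X ⟨J, M, cap⟩ ε ε' μ mdyn mbatch hcap he3 he4 hstar ?_ o Λ hΛ F hF hdep C hC hFC
    filter_upwards [g5] with w hw o
    obtain ⟨N, -, hN⟩ := hw o
    exact ⟨N, hN⟩
  · have key := hCHG X ⟨J, M, cap⟩ ε ε' μ (yr X ε ε' t ζ κ 1) (yrt 1).1 t (ζ ^ CR * κ) ht1.le hb1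
      hbt (by filter_upwards [g5] with w hw using hw 1) (by
        filter_upwards [g4] with w hw Λ hne
        obtain ⟨m, k, hk, h1, h⟩ :=
          (hCR cap hcap ε ε' w.1.1 w.1.2 w.2 he4.le hw.1 hw.2.1 1).2 Λ hne
        exact ⟨m, k, hk, h1, h t ζ κ ht1.le hζ1 hκ1⟩)
      (fun s => (hINVS hEQM X ⟨J, M, cap⟩ ε ε' μ hinv s).le)
    refine key.trans (add_le_add ?_ le_rfl)
    rw [hb]
    refine (ENNReal.div_le_div_right (hint 1) _).trans ?_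
    rw [← ENNReal.ofReal_pow (by positivity), ← ENNReal.ofReal_one,
      ← ENNReal.ofReal_div_of_pos (by positivity)]
    apply ENNReal.ofReal_le_ofReal
    apply le_of_eq
    field_simp

end Pool.Agent.Helper79.OE
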