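import Pool.Agent.Helper79.OE.BatchD
import Pool.Agent.Helper73.OE.DynLaw

/-!
Project OE: the law after the batch in a finite volume (7.1), from the exactness of one update.
-/

open MeasureTheory Pool.Agent.Helper73.OE Pool.Agent.Helper78.OE
open scoped ENNReal

namespace Pool.Agent.Helper79.OE

section

variable {H S L : Type} [Group H] (X : Sys H S L)

theorem MA_inside (Λ : Set H) (O : Edges H S) (q : Cfg H S L) :
    X.MA (X.inside Λ O) Λ q ↔ X.MA O Λ q :=
  ⟨fun h v s hv hs ho => h v s hv hs ⟨ho, hv, hs⟩, fun h v s hv hs ho => h v s hv hs ho.1⟩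

theorem starSum_inside' [Fintype S] [Fintype L] (Λ : Finset H) (O : Edges H S)
    (F : Cfg H S L → ℝ≥0∞) : X.starSum Λ (X.inside (Λ : Set H) O) F = X.starSum Λ O F := by
  classical
  unfold Sys.starSum
  refine Finset.sum_congr rfl fun f _ => ?_
  simp only [MA_inside]

theorem Cl_mono {ε ε' : ℝ} (h : ε' ≤ ε) (η : Env H S) (v : H) (s : S) (hc : X.Cl ε' η v s) :
    X.Cl ε η v s := ⟨hc.1.trans h, hc.2.trans h⟩

theorem Sym_inside {Λ : Set H} {O : Edges H S} (h : X.Sym O) : X.Sym (X.inside Λ O) := by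
  intro v s
  unfold Sys.inside
  rw [X.nb_bar, ← h v s]
  tauto

theorem Cl_symm (ε : ℝ) (η : Env H S) (v : H) (s : S) :
    X.Cl ε η v s ↔ X.Cl ε η (X.nb v s) (X.bar s) := by
  have h := Op_symm X ε η v s
  unfold Sys.Op at h
  exact not_iff_not.1 h

theorem addL_ord' [Fintype S] [Fintype L] {ε ε' : ℝ} (h : ε' ≤ ε) (η : Env H S) (Λ : Set H) (l : List (H × S))
    (hl : X.IsOrd ε ε' η Λ l) (hη : Sys.Dist η) :
    X.addL (X.inside Λ (X.Op ε η)) l = X.inside Λ (X.Op ε' η) := by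
  funext v s
  apply propext
  rw [X.addL_iff]
  constructor
  · rintro (h1 | ⟨e, he, h1 | h1⟩)
    · exact ⟨fun hc => h1.1 (Cl_mono X h η v s hc), h1.2⟩
    · have h2 := (hl.2 e).1 he
      rw [← h1] at h2
      exact ⟨h2.1.2, h2.2.1, h2.2.2.1⟩
    · have h2 := (hl.2 e).1 he
      have h3 : v = X.nb e.1 e.2 := congrArg Prod.fst h1
      have h4 : s = X.bar e.2 := congrArg Prod.snd h1
      subst h3
      subst h4
      refine ⟨?_, h2.2.2.1, ?_⟩
      · have h5 := h2.1.2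
        rw [Cl_symm] at h5
        exact h5
      · rw [X.nb_bar]; exact h2.2.1
  · rintro ⟨h1, h2, h3⟩
    by_cases h4 : X.Op ε η v s
    · exact Or.inl ⟨h4, h2, h3⟩
    · right
      have h5 : X.Cl ε η v s := not_not.1 h4
      have h6 : (η (v, s)).2 ≠ (η (X.rev (v, s))).2 := by
        intro h7
        exact X.rev_ne (v, s) (hη _ _ h7).symm
      rcases lt_or_gt_of_ne h6 with h7 | h7
      · refine ⟨(v, s), (hl.2 _).2 ⟨⟨h5, h1⟩, h2, h3, ?_⟩, Or.inl rfl⟩
        exact_mod_cast h7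
      · refine ⟨X.rev (v, s), (hl.2 _).2 ⟨⟨?_, ?_⟩, h3, ?_, ?_⟩, Or.inr ?_⟩
        · exact (Cl_symm X ε η v s).1 h5
        · exact fun hc => h1 ((Cl_symm X ε' η v s).2 hc)
        · change X.nb (X.nb v s) (X.bar s) ∈ Λ
          rw [X.nb_bar]; exact h2
        · unfold Sys.Pos
          rw [X.rev_rev]
          exact_mod_cast h7
        · rw [X.rev_rev]

end

theorem fv_of (hE : Exact_stmt) (hUL : UpdLoc_stmt) : FV_stmt := by
  classical
  intro H S L _ _ _ _ X P hcap ε ε' h0 h1 μ hstar o Λ hΛ F hF hdep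
  have hpr : IsProbabilityMeasure μ := (Pool.Agent.Helper82.OE.marg X ε μ hstar).1
  have mdyn : Measurable fun w : (Cfg H S L × Env H S) × Seeds H S =>
      X.dyn P ε ε' (Λ : Set H) w.1.1 w.1.2 w.2 :=
    Pool.Agent.Helper30.OE.mea hUL Pool.Agent.Helper58.OE.ord Pool.Agent.Helper26.OE.meo X P ε ε' Λ
  have mG : Measurable fun w : (Cfg H S L × Env H S) × Seeds H S =>
      F (X.dyn P ε ε' (Λ : Set H) w.1.1 w.1.2 w.2, w.1.2) :=
    hF.comp (mdyn.prodMk (measurable_snd.comp measurable_fst))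
  rw [lintegral_prod _ mG.aemeasurable]
  set Φ : Cfg H S L × Env H S → ℝ≥0∞ := fun w =>
    ∫⁻ u, F (X.dyn P ε ε' (Λ : Set H) w.1 w.2 u, w.2) ∂(Sys.lamS H S) with hΦ
  have mΦ : Measurable Φ := mG.lintegral_prod_right'
  have dΦ : ∀ q q' η, (∀ z ∈ Λ, q z = q' z) → Φ (q, η) = Φ (q', η) := by
    intro q q' η hq
    rw [hΦ]
    refine lintegral_congr fun u => ?_
    apply hdep
    intro z hz
    exact (Pool.Agent.Helper30.OE.dynL_loc X hUL P (Λ : Set H) _ _ (X.ordL ε ε' η (Λ : Set H)) _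
      (Pool.Agent.Helper30.OE.inside_in X _ _) (Pool.Agent.Helper30.OE.ordL_in X ε ε' η _)
      (fun _ _ => rfl) q q' hq).1 z hz
  change ∫⁻ w, Φ w ∂μ = _
  rw [hstar o Λ hΛ Φ mΦ dΦ]
  apply lintegral_congr_ae
  filter_upwards [Pool.Agent.Helper86.OE.dis (H := H) (S := S)] with η hη
  -- the list
  set l := X.ordL ε ε' η (Λ : Set H) with hl0
  have hl : X.IsOrd ε ε' η (Λ : Set H) l :=
    (Pool.Agent.Helper58.OE.ord X ε ε' η (Λ : Set H)).2 inferInstance (Finset.finite_toSet _) hη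
  have hsym : X.Sym (X.inside (Λ : Set H) (X.Op ε η)) :=
    Sym_inside X fun v s => Op_symm X ε η v s
  have hpw : l.Pairwise (fun e e' => e' ≠ e ∧ e' ≠ X.rev e) := by
    refine hl.1.imp ?_
    intro e e' hlt
    refine ⟨?_, ?_⟩
    · rintro rfl; exact lt_irrefl _ hlt
    · rintro rfl
      unfold Sys.prio at hlt
      rw [X.rev_rev, max_comm] at hlt
      exact lt_irrefl _ hlt
  have key : ∀ G : Cfg H S L → ℝ≥0∞,
      ∫⁻ u, X.starSum Λ (X.Op ε η) (fun f => G (X.dynL P (Sys.sd P u) l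
        (X.inside (Λ : Set H) (X.Op ε η)) f)) ∂(Sys.lamS H S) =
      (Fintype.card L : ℝ≥0∞) ^ l.length * X.starSum Λ (X.Op ε' η) G := by
    intro G
    have h2 := X.dynL_law hE P hcap Λ l (X.inside (Λ : Set H) (X.Op ε η)) hsym
      (fun v s h => ⟨Finset.mem_coe.1 h.2.1, Finset.mem_coe.1 h.2.2⟩)
      (fun e he => by
        have h3 := (hl.2 e).1 he
        exact ⟨Finset.mem_coe.1 h3.2.1, Finset.mem_coe.1 h3.2.2.1, fun h4 => h4.1 h3.1.1⟩)
      hpw G
    rw [addL_ord' X h1.le η _ l hl hη, starSum_inside'] at h2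
    rw [← h2]
    refine lintegral_congr fun u => ?_
    rw [starSum_inside']
  have mdynL : ∀ f : Cfg H S L, Measurable fun u : Seeds H S =>
      F (X.dynL P (Sys.sd P u) l (X.inside (Λ : Set H) (X.Op ε η)) f, η) := by
    intro f
    exact X.measurable_dynL P l _ f (fun q => F (q, η))
  have hΦs : X.starSum Λ (X.Op ε η) (fun q => Φ (q, η)) =
      ∫⁻ u, X.starSum Λ (X.Op ε η) (fun f => F (X.dynL P (Sys.sd P u) l
        (X.inside (Λ : Set H) (X.Op ε η)) f, η)) ∂(Sys.lamS H S) := by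
    unfold Sys.starSum
    rw [lintegral_finsetSum]
    · refine Finset.sum_congr rfl fun f _ => ?_
      split_ifs
      · rfl
      · rw [lintegral_zero]
    · intro f _
      split_ifs
      · exact mdynL _
      · exact measurable_const
  have hone : X.starSum Λ (X.Op ε η) (fun _ => 1) =
      (Fintype.card L : ℝ≥0∞) ^ l.length * X.starSum Λ (X.Op ε' η) (fun _ => 1) := by
    rw [← key (fun _ => 1)]
    rw [lintegral_const, measure_univ, mul_one]
  have hK0 : (Fintype.card L : ℝ≥0∞) ^ l.length ≠ 0 := by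
    by_cases hnil : l = []
    · rw [hnil]; simp
    · obtain ⟨e, he⟩ := List.exists_mem_of_ne_nil l hnil
      have : Nonempty L := ⟨X.e0 e.2⟩
      exact pow_ne_zero _ (by exact_mod_cast Fintype.card_ne_zero)
  have hKt : (Fintype.card L : ℝ≥0∞) ^ l.length ≠ ⊤ := ENNReal.pow_ne_top (by simp)
  unfold Sys.starAvg
  rw [hΦs, key (fun q => F (q, η)), hone]
  exact ENNReal.mul_div_mul_left _ _ hK0 hKt

end Pool.Agent.Helper79.OE
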