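import Pool.Agent.Helper79.OE.FVD
import Pool.Agent.Helper75.OE.AsmAB
import Pool.Agent.Helper78.OE.BlockC
import Pool.Agent.Helper8.OE.LAB

/-!
Project OE: block D with blocks A and B.
-/

open MeasureTheory Pool.Agent.Helper73.OE Pool.Agent.Helper78.OE

namespace Pool.Agent.Helper79.OE

theorem fv : FV_stmt :=
  fv_of Pool.Agent.Helper75.OE.Asm.exact_stmt Pool.Agent.Helper75.OE.Asm.updLoc_stmt

theorem batchMeas : BatchMeas_stmt := batchMeas_of Pool.Agent.Helper75.OE.Asm.updLoc_stmt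

theorem batch (hInd : Ind_stmt) : Batch_stmt :=
  batch_of Pool.Agent.Helper75.OE.Asm.wit_stmt Pool.Agent.Helper78.OE.matched_stmt hInd
    Pool.Agent.Helper8.OE.lab fv
    Pool.Agent.Helper75.OE.Asm.updLoc_stmt

theorem batch_stmt : Batch_stmt := batch Pool.Agent.Helper78.OE.ind_stmt

end Pool.Agent.Helper79.OE
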