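import Pool.Agent.Helper75.OE.GoalsA

/-!
Project OE, packet LLOC.
-/

open Pool.Agent.Helper73.OE

namespace Pool.Agent.Helper79.OE

theorem lloc : Pool.Agent.Helper75.OE.A_LLOC := by
  intro H S L _ X O O' v p y f g hy hMA hg hO r
  induction r generalizing v p y with
  | zero => exact Iff.rfl
  | succ r ih =>
    unfold Sys.Long
    have hv : v ∈ X.Sd v p := X.self_mem_Sd v p
    rw [hg v hv]
    set s := (f v).symm y with hs
    have hfs : f v s = y := by rw [hs, Equiv.apply_symm_apply]
    have hsp : s ≠ p := by
      intro h
      apply hy
      rw [← hfs, h]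
    have hsub : X.Sd (X.nb v s) (X.bar s) ⊆ X.Sd v p := X.branch_subset hsp
    have hnb : X.nb v s ∈ X.Sd v p := hsub (X.self_mem_Sd _ _)
    rw [hO v s hv hnb]
    by_cases ho : O v s
    · simp only [ho, true_and]
      have hm : X.Mt f v s := hMA v s hv hnb ho
      apply ih
      · rw [hm, hfs]
        intro h
        apply hy
        have := congrArg X.tau h
        rw [X.tau_tau, X.tau_tau] at this
        exact this.symm
      · intro a b ha hb hab
        exact hMA a b (hsub ha) (hsub hb) hab
      · intro z hz; exact hg z (hsub hz)
      · intro z r hz hr; exact hO z r (hsub hz) (hsub hr)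
    · simp only [ho, false_and]

end Pool.Agent.Helper79.OE
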